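import Mathlib
import Pool.Agent.H254Z.WT.Perfect

/-!
# MP_55e6a3_gt, Q2: perfect images of weakly theta-refinable spaces are weakly theta-refinable
-/

set_option autoImplicit false

namespace Pool.Agent.Results.MP_55e6a3_gt.APerfectImage

/-- A space is weakly theta-refinable if every open cover `U` has an open refinement which is a
union of countably many families `V n` such that every point `x` lies in at least one and only
finitely many members of some `V n`. -/
def WeaklyThetaRefinable (X : Type*) [TopologicalSpace X] : Prop :=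
  ∀ U : Set (Set X), (∀ u ∈ U, IsOpen u) → ⋃₀ U = Set.univ →
    ∃ V : ℕ → Set (Set X), (∀ n, ∀ v ∈ V n, IsOpen v ∧ ∃ u ∈ U, v ⊆ u) ∧
      ∀ x, ∃ n, {v | v ∈ V n ∧ x ∈ v}.Nonempty ∧ {v | v ∈ V n ∧ x ∈ v}.Finite

/-- Weak theta-refinability is preserved by perfect mappings; no separation axiom is assumed. -/
theorem result {X Y : Type*} [TopologicalSpace X] [TopologicalSpace Y] (f : X → Y)
    (hf : Continuous f) (hs : Function.Surjective f) (hcl : IsClosedMap f)
    (hK : ∀ y, IsCompact (f ⁻¹' {y})) (hX : WeaklyThetaRefinable X) :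
    WeaklyThetaRefinable Y := by
  intro U hUo hcov
  obtain ⟨V, h1, h2⟩ := Pool.Agent.H254Z.WT.perfect_image hf hs hcl hK
    (fun U' a b => (hX U' a b).imp fun V h => ⟨h.1, fun x _ => h.2 x⟩) U hUo hcov
  exact ⟨V, h1, fun x => h2 x (Set.mem_univ x)⟩

end Pool.Agent.Results.MP_55e6a3_gt.APerfectImage
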